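import Pool.Agent.X247.Adm.Core
import Pool.Agent.NPC.Dec

/-!
# The deterministic construction
-/

namespace Pool.Agent.NPC.X247Adm

open Pool.Agent.X247.Adm

/-! ### The algorithm -/

/-- the least `m` with `n ≤ m ^ 3` -/
def mOf (n : ℕ) : ℕ := ((List.range (n + 2)).filter fun m => decide (n ≤ m * m * m)).getD 0 0

/-- the number `q`, which is at most `4 m`, is a prime -/
def primeB (m q : ℕ) : Bool :=
  decide (2 ≤ q) && (List.range (4 * m + 1)).all fun a =>
    decide (a ≤ 1) || (decide (q ≤ a) || !decide (q % a = 0))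

/-- a prime between `2 m` and `4 m` -/
def pOf (m : ℕ) : ℕ :=
  ((List.range (4 * m + 1)).filter fun q => decide (2 * m + 1 ≤ q) && primeB m q).getD 0 0

/-- `u` has digits on the paraboloid -/
def inB (m p u : ℕ) : Bool :=
  (List.range (2 * m)).any fun x => (List.range (2 * m)).any fun y =>
    decide (u = x + y * m + (x * x + y * y) % p * (m * m))

/-- the set -/
def sList (n : ℕ) : List ℕ :=
  ((List.range (2 * n)).filter fun u => inB (mOf n) (pOf (mOf n)) u).map fun u => 2 * n + u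

/-! ### The running time -/

theorem getD_le {l : List ℕ} {b : ℕ} (h : ∀ x ∈ l, x ≤ b) : l.getD 0 0 ≤ b := by
  cases l with
  | nil => simp
  | cons a l => simpa using h a (by simp)

theorem mOf_le (n : ℕ) : mOf n ≤ n + 1 := by
  refine getD_le fun x hx => ?_
  rw [List.mem_filter, List.mem_range] at hx
  omega

theorem pOf_le (m : ℕ) : pOf m ≤ 4 * m := by
  refine getD_le fun x hx => ?_
  rw [List.mem_filter, List.mem_range] at hx
  omega

section Poly

variable {α : Type} [TEnc α]

theorem uPoly_mOf : UPoly (fun x : List Bool => mOf x.length) := by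
  have hn : UPoly (fun x : List Bool => x.length) := UPoly.length Poly.id
  refine UPoly.of_le ?_ (UPoly.add hn (UPoly.const 1)) fun x => mOf_le x.length
  have h1 : Poly (fun x : List Bool => (List.range (x.length + 2)).filter
      fun m => decide (x.length ≤ m * m * m)) := by
    refine Poly.filter (p := fun (x : List Bool) m => decide (x.length ≤ m * m * m))
      (UPoly.range (UPoly.add hn (UPoly.const 2))) ?_
    have hm : Poly (fun q : List Bool × ℕ => q.2) := Poly.snd Poly.id
    exact Poly.decide_le (Poly.length (Poly.fst Poly.id)) (Poly.mul (Poly.mul hm hm) hm)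
  exact Poly.getD h1 (Poly.const 0) (Poly.const 0)

theorem poly_primeB {m q : α → ℕ} (hm : UPoly m) (hq : Poly q) :
    Poly (fun a => primeB (m a) (q a)) := by
  refine Poly.and (Poly.decide_le (Poly.const 2) hq) ?_
  refine Poly.all (p := fun a b => decide (b ≤ 1) || (decide (q a ≤ b) || !decide (q a % b = 0)))
    (UPoly.range (UPoly.add (UPoly.mul (UPoly.const 4) hm) (UPoly.const 1))) ?_
  have hb : Poly (fun x : α × ℕ => x.2) := Poly.snd Poly.id
  have hq' : Poly (fun x : α × ℕ => q x.1) := hq.comp (Poly.fst Poly.id)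
  exact Poly.or (Poly.decide_le hb (Poly.const 1)) (Poly.or (Poly.decide_le hq' hb)
    (Poly.not (Poly.decide_eq (Poly.mod hq' hb) (Poly.const 0))))

theorem poly_pOf {m : α → ℕ} (hm : UPoly m) : Poly (fun a => pOf (m a)) := by
  have h1 : Poly (fun a => (List.range (4 * m a + 1)).filter
      fun q => decide (2 * m a + 1 ≤ q) && primeB (m a) q) := by
    refine Poly.filter (p := fun a q => decide (2 * m a + 1 ≤ q) && primeB (m a) q)
      (UPoly.range (UPoly.add (UPoly.mul (UPoly.const 4) hm) (UPoly.const 1))) ?_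
    have hq : Poly (fun x : α × ℕ => x.2) := Poly.snd Poly.id
    have hm' : UPoly (fun x : α × ℕ => m x.1) := hm.comp (Poly.fst Poly.id)
    exact Poly.and (Poly.decide_le (Poly.add (Poly.mul (Poly.const 2) hm'.toPoly)
      (Poly.const 1)) hq) (poly_primeB hm' hq)
  exact Poly.getD h1 (Poly.const 0) (Poly.const 0)

theorem poly_inB {m p u : α → ℕ} (hm : UPoly m) (hp : Poly p) (hu : Poly u) :
    Poly (fun a => inB (m a) (p a) (u a)) := by
  refine Poly.any (p := fun a x => (List.range (2 * m a)).any fun y =>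
    decide (u a = x + y * m a + (x * x + y * y) % p a * (m a * m a)))
    (UPoly.range (UPoly.mul (UPoly.const 2) hm)) ?_
  refine Poly.any (p := fun (b : α × ℕ) y =>
    decide (u b.1 = b.2 + y * m b.1 + (b.2 * b.2 + y * y) % p b.1 * (m b.1 * m b.1)))
    (UPoly.range (UPoly.mul (UPoly.const 2) (hm.comp (Poly.fst Poly.id)))) ?_
  have hy : Poly (fun c : (α × ℕ) × ℕ => c.2) := Poly.snd Poly.id
  have hx : Poly (fun c : (α × ℕ) × ℕ => c.1.2) := Poly.snd (Poly.fst Poly.id)
  have h1 : Poly (fun c : (α × ℕ) × ℕ => c.1.1) := Poly.fst (Poly.fst Poly.id)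
  have hm' : Poly (fun c : (α × ℕ) × ℕ => m c.1.1) := hm.toPoly.comp h1
  have hp' : Poly (fun c : (α × ℕ) × ℕ => p c.1.1) := hp.comp h1
  have hu' : Poly (fun c : (α × ℕ) × ℕ => u c.1.1) := hu.comp h1
  exact Poly.decide_eq hu' (Poly.add (Poly.add hx (Poly.mul hy hm'))
    (Poly.mul (Poly.mod (Poly.add (Poly.mul hx hx) (Poly.mul hy hy)) hp') (Poly.mul hm' hm')))

theorem poly_sList : Poly (fun x : List Bool => sList x.length) := by
  have hn : UPoly (fun x : List Bool => x.length) := UPoly.length Poly.id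
  have h1 : Poly (fun x : List Bool => (List.range (2 * x.length)).filter
      fun u => inB (mOf x.length) (pOf (mOf x.length)) u) := by
    refine Poly.filter (p := fun (x : List Bool) u => inB (mOf x.length) (pOf (mOf x.length)) u)
      (UPoly.range (UPoly.mul (UPoly.const 2) hn)) ?_
    exact poly_inB (uPoly_mOf.comp (Poly.fst Poly.id))
      ((poly_pOf uPoly_mOf).comp (Poly.fst Poly.id)) (Poly.snd Poly.id)
  refine Poly.map (F := fun (x : List Bool) u => 2 * x.length + u) h1 ?_
  exact Poly.add (Poly.mul (Poly.const 2) (Poly.length (Poly.fst Poly.id))) (Poly.snd Poly.id)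

theorem polyTime_sList : PolyTime (fun x => bits (sList x.length)) := polyTime_bits poly_sList

end Poly

/-! ### Correctness -/

theorem first_spec (P : ℕ → Bool) : ∀ N : ℕ, (∃ k, k < N ∧ P k = true) →
    P (((List.range N).filter P).getD 0 0) = true ∧
      ∀ j, j < ((List.range N).filter P).getD 0 0 → P j = false := by
  intro N
  induction N with
  | zero => rintro ⟨k, hk, _⟩; omega
  | succ N ih =>
    rintro ⟨k, hk, hP⟩
    rw [List.range_succ, List.filter_append]
    by_cases h : ∃ k, k < N ∧ P k = true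
    · have hne : (List.range N).filter P ≠ [] := by
        obtain ⟨k, hk, hP⟩ := h
        exact List.ne_nil_of_mem (List.mem_filter.2 ⟨List.mem_range.2 hk, hP⟩)
      have : (((List.range N).filter P) ++ [N].filter P).getD 0 0 =
          ((List.range N).filter P).getD 0 0 := by
        cases hl : (List.range N).filter P with
        | nil => exact absurd hl hne
        | cons a l => simp
      rw [this]
      exact ih h
    · have hall : ∀ j, j < N → P j = false := by
        intro j hj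
        cases hPj : P j with
        | false => rfl
        | true => exact absurd ⟨j, hj, hPj⟩ h
      have hnil : (List.range N).filter P = [] := by
        rw [List.filter_eq_nil_iff]
        intro j hj
        rw [hall j (List.mem_range.1 hj)]
        simp
      have hkN : k = N := by
        by_contra hc
        exact h ⟨k, by omega, hP⟩
      subst hkN
      rw [hnil]
      simp only [List.nil_append, List.filter_cons, hP, if_true, List.filter_nil,
        List.getD_cons_zero]
      exact ⟨trivial, hall⟩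

theorem mOf_spec {n : ℕ} (hn : 1 ≤ n) : n ≤ mOf n * mOf n * mOf n ∧ 1 ≤ mOf n ∧
    mOf n * mOf n * mOf n ≤ 8 * n := by
  have h := first_spec (fun m => decide (n ≤ m * m * m)) (n + 2)
    ⟨n, by omega, by
      rw [decide_eq_true_eq]
      nlinarith [Nat.mul_le_mul hn hn]⟩
  obtain ⟨h1, h2⟩ := h
  change decide (n ≤ mOf n * mOf n * mOf n) = true at h1
  change ∀ j, j < mOf n → decide (n ≤ j * j * j) = false at h2
  rw [decide_eq_true_eq] at h1
  have h3 : 1 ≤ mOf n := by
    by_contra hc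
    have : mOf n = 0 := by omega
    rw [this] at h1
    omega
  refine ⟨h1, h3, ?_⟩
  have h4 := h2 (mOf n - 1) (by omega)
  rw [decide_eq_false_iff_not, not_le] at h4
  obtain ⟨k, hk⟩ : ∃ k, mOf n = k + 1 := ⟨mOf n - 1, by omega⟩
  rw [hk, Nat.add_sub_cancel] at h4
  rw [hk]
  rcases Nat.eq_zero_or_pos k with h0 | h0
  · subst h0
    omega
  · have : (k + 1) * (k + 1) * (k + 1) ≤ (2 * k) * (2 * k) * (2 * k) :=
      Nat.mul_le_mul (Nat.mul_le_mul (by omega) (by omega)) (by omega)
    nlinarith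

theorem primeB_iff {m q : ℕ} (hq : q ≤ 4 * m) : primeB m q = true ↔ q.Prime := by
  unfold primeB
  rw [Bool.and_eq_true, decide_eq_true_eq, List.all_eq_true]
  simp only [List.mem_range, Bool.or_eq_true, decide_eq_true_eq, Bool.not_eq_true',
    decide_eq_false_iff_not]
  rw [Nat.prime_def_lt']
  constructor
  · rintro ⟨h1, h2⟩
    refine ⟨h1, fun a ha1 ha2 hdvd => ?_⟩
    rcases h2 a (by omega) with h | h | h
    · omega
    · omega
    · exact h (Nat.mod_eq_zero_of_dvd hdvd)
  · rintro ⟨h1, h2⟩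
    refine ⟨h1, fun a ha => ?_⟩
    by_cases h3 : a ≤ 1
    · exact Or.inl h3
    · by_cases h4 : q ≤ a
      · exact Or.inr (Or.inl h4)
      · exact Or.inr (Or.inr fun h5 => h2 a (by omega) (by omega) (Nat.dvd_of_mod_eq_zero h5))

theorem pOf_spec {m : ℕ} (hm : 1 ≤ m) : (pOf m).Prime ∧ 2 * m < pOf m ∧ pOf m ≤ 4 * m := by
  obtain ⟨q, hq1, hq2, hq3⟩ := Nat.exists_prime_lt_and_le_two_mul (2 * m) (by omega)
  have h := first_spec (fun q => decide (2 * m + 1 ≤ q) && primeB m q) (4 * m + 1)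
    ⟨q, by omega, by
      rw [Bool.and_eq_true, decide_eq_true_eq, primeB_iff (by omega)]
      exact ⟨by omega, hq1⟩⟩
  obtain ⟨h1, -⟩ := h
  change (decide (2 * m + 1 ≤ pOf m) && primeB m (pOf m)) = true at h1
  rw [Bool.and_eq_true, decide_eq_true_eq, primeB_iff (pOf_le m)] at h1
  exact ⟨h1.2, by omega, pOf_le m⟩

theorem inB_iff {m p u : ℕ} : inB m p u = true ↔ ∃ x < 2 * m, ∃ y < 2 * m,
    u = x + y * m + (x * x + y * y) % p * (m * m) := by
  unfold inB
  simp only [List.any_eq_true, List.mem_range, decide_eq_true_eq]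

theorem mem_sList {n s : ℕ} : s ∈ sList n ↔
    ∃ u, u < 2 * n ∧ inB (mOf n) (pOf (mOf n)) u = true ∧ s = 2 * n + u := by
  unfold sList
  rw [List.mem_map]
  constructor
  · rintro ⟨u, hu, rfl⟩
    rw [List.mem_filter, List.mem_range] at hu
    exact ⟨u, hu.1, hu.2, rfl⟩
  · rintro ⟨u, h1, h2, rfl⟩
    exact ⟨u, List.mem_filter.2 ⟨List.mem_range.2 h1, h2⟩, rfl⟩

theorem sList_nodup (n : ℕ) : (sList n).Nodup := by
  unfold sList
  refine List.Nodup.map (fun a b h => ?_) (List.Nodup.filter _ List.nodup_range)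
  have h' : 2 * n + a = 2 * n + b := h
  omega

theorem sList_length (n : ℕ) : (sList n).length ≤ 4 * (mOf n * mOf n) := by
  have h1 : (sList n).length = (sList n).toFinset.card :=
    (List.toFinset_card_of_nodup (sList_nodup n)).symm
  rw [h1]
  have h2 : (sList n).toFinset ⊆ (Finset.range (2 * mOf n) ×ˢ Finset.range (2 * mOf n)).image
      (fun q => 2 * n + (q.1 + q.2 * mOf n + (q.1 * q.1 + q.2 * q.2) % pOf (mOf n) *
        (mOf n * mOf n))) := by
    intro s hs
    rw [List.mem_toFinset, mem_sList] at hs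
    obtain ⟨u, -, h3, rfl⟩ := hs
    obtain ⟨x, hx, y, hy, rfl⟩ := inB_iff.1 h3
    rw [Finset.mem_image]
    exact ⟨(x, y), by simp [hx, hy], rfl⟩
  refine (Finset.card_le_card h2).trans (Finset.card_image_le.trans ?_)
  rw [Finset.card_product, Finset.card_range]
  apply le_of_eq
  ring

theorem adm_card {n : ℕ} (hn : 1 ≤ n) (A : Finset ℕ) (hA : ∀ a ∈ A, n ≤ a ∧ a < 2 * n)
    (hadm : ∀ a ∈ A, ∀ b ∈ A, a ≠ b → a + b ∉ sList n) :
    A.card ≤ 32 * (mOf n * mOf n) := by
  obtain ⟨m1, m2, m3⟩ := mOf_spec hn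
  obtain ⟨p1, p2, p3⟩ := pOf_spec m2
  have hmem : ∀ u, u < 2 * n → inB (mOf n) (pOf (mOf n)) u = true → 2 * n + u ∈ sList n :=
    fun u h1 h2 => mem_sList.2 ⟨u, h1, h2, rfl⟩
  generalize sList n = S at hadm hmem
  generalize mOf n = m at *
  generalize pOf m = p at *
  haveI : Fact p.Prime := ⟨p1⟩
  have hcast : ∀ x y : ℕ, x < p → y < p → (x : ZMod p) = (y : ZMod p) → x = y := by
    intro x y hx hy h
    rw [ZMod.natCast_eq_natCast_iff'] at h
    rwa [Nat.mod_eq_of_lt hx, Nat.mod_eq_of_lt hy] at h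
  obtain ⟨X, hX⟩ : ∃ X : ℕ → ℕ, X = fun a => (a - n) % m := ⟨_, rfl⟩
  obtain ⟨Y, hY⟩ : ∃ Y : ℕ → ℕ, Y = fun a => (a - n) / m % m := ⟨_, rfl⟩
  obtain ⟨Z, hZ⟩ : ∃ Z : ℕ → ℕ, Z = fun a => (a - n) / m / m := ⟨_, rfl⟩
  have hXl : ∀ a, X a < m := fun a => by rw [hX]; exact Nat.mod_lt _ (by omega)
  have hYl : ∀ a, Y a < m := fun a => by rw [hY]; exact Nat.mod_lt _ (by omega)
  have hdec : ∀ a, a - n = X a + Y a * m + Z a * (m * m) := by
    intro a
    rw [hX, hY, hZ]
    simp only
    have e1 := Nat.div_add_mod (a - n) m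
    have e2 := Nat.div_add_mod ((a - n) / m) m
    calc a - n = m * ((a - n) / m) + (a - n) % m := e1.symm
      _ = m * (m * ((a - n) / m / m) + (a - n) / m % m) + (a - n) % m := by rw [e2]
      _ = _ := by ring
  have hZl : ∀ a, n ≤ a ∧ a < 2 * n → Z a < m := by
    intro a ha
    by_contra hc
    rw [not_lt] at hc
    have h1 := hdec a
    have h2 : m * (m * m) ≤ Z a * (m * m) := Nat.mul_le_mul_right _ hc
    have h3 : m * m * m = m * (m * m) := by ring
    omega
  obtain ⟨φ, hφ⟩ : ∃ φ : ℕ → ZMod p × ZMod p × ZMod p,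
      φ = fun a => ((X a : ZMod p), (Y a : ZMod p), (Z a : ZMod p)) := ⟨_, rfl⟩
  have hinj : Set.InjOn φ A := by
    intro a ha b hb h
    rw [hφ] at h
    simp only [Prod.mk.injEq] at h
    have ha' := hA a ha
    have hb' := hA b hb
    have x1 := hcast _ _ ((hXl a).trans (by omega)) ((hXl b).trans (by omega)) h.1
    have x2 := hcast _ _ ((hYl a).trans (by omega)) ((hYl b).trans (by omega)) h.2.1
    have x3 := hcast _ _ ((hZl a ha').trans (by omega)) ((hZl b hb').trans (by omega)) h.2.2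
    have d1 := hdec a
    have d2 := hdec b
    rw [x1, x2, x3, ← d2] at d1
    omega
  have hcard : (A.image φ).card = A.card := Finset.card_image_of_injOn hinj
  have hbound := card_le (p := p) (by omega) (A.image φ) (by
    intro v hv w hw hvw hpar
    rw [Finset.mem_image] at hv hw
    obtain ⟨a, ha, rfl⟩ := hv
    obtain ⟨b, hb, rfl⟩ := hw
    have hab : a ≠ b := fun h => hvw (by rw [h])
    have ha' := hA a ha
    have hb' := hA b hb
    apply hadm a ha b hb hab
    have e : a + b = 2 * n + ((a - n) + (b - n)) := by omega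
    rw [e]
    refine hmem _ (by omega) (inB_iff.2 ⟨X a + X b, ?_, Y a + Y b, ?_, ?_⟩)
    · have := hXl a
      have := hXl b
      omega
    · have := hYl a
      have := hYl b
      omega
    · rw [hφ] at hpar
      simp only [Par, Prod.mk_add_mk] at hpar
      have h1 : ((Z a + Z b : ℕ) : ZMod p) =
          (((X a + X b) * (X a + X b) + (Y a + Y b) * (Y a + Y b) : ℕ) : ZMod p) := by
        push_cast
        exact hpar
      rw [ZMod.natCast_eq_natCast_iff'] at h1
      have h2 : (Z a + Z b) % p = Z a + Z b := Nat.mod_eq_of_lt (by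
        have := hZl a ha'
        have := hZl b hb'
        omega)
      rw [h2] at h1
      rw [← h1]
      have d1 := hdec a
      have d2 := hdec b
      calc (a - n) + (b - n) = (X a + Y a * m + Z a * (m * m)) + (X b + Y b * m + Z b * (m * m)) := by
            rw [← d1, ← d2]
        _ = _ := by ring)
  rw [hcard] at hbound
  have h1 : p * p ≤ 16 * (m * m) := by
    calc p * p ≤ (4 * m) * (4 * m) := Nat.mul_le_mul p3 p3
      _ = 16 * (m * m) := by ring
  have h2 : p ≤ p * p := Nat.le_mul_of_pos_left p p1.pos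
  omega

/-! ### The bounds -/

theorem m_le {n : ℕ} (hn : 1 ≤ n) : ((mOf n * mOf n : ℕ) : ℝ) ≤ 4 * (n : ℝ) ^ (2 / 3 : ℝ) := by
  obtain ⟨-, -, m3⟩ := mOf_spec hn
  have h1 : ((mOf n : ℝ)) ^ 3 ≤ 8 * n := by
    have := (Nat.cast_le (α := ℝ)).2 m3
    push_cast at this
    calc ((mOf n : ℝ)) ^ 3 = mOf n * mOf n * mOf n := by ring
      _ ≤ _ := this
  have h2 : (((mOf n : ℝ)) ^ 3) ^ (2 / 3 : ℝ) ≤ (8 * (n : ℝ)) ^ (2 / 3 : ℝ) :=
    Real.rpow_le_rpow (by positivity) h1 (by norm_num)
  have h3 : (((mOf n : ℝ)) ^ 3) ^ (2 / 3 : ℝ) = ((mOf n * mOf n : ℕ) : ℝ) := by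
    rw [← Real.rpow_natCast, ← Real.rpow_mul (by positivity)]
    norm_num
    ring
  have h4 : (8 * (n : ℝ)) ^ (2 / 3 : ℝ) = 4 * (n : ℝ) ^ (2 / 3 : ℝ) := by
    rw [Real.mul_rpow (by norm_num) (by positivity)]
    congr 1
    rw [show (8 : ℝ) = 2 ^ (3 : ℝ) by norm_num, ← Real.rpow_mul (by norm_num)]
    norm_num
  rw [h3, h4] at h2
  exact h2

theorem log_ge {n : ℕ} (hn : 2 ≤ n) : (1 : ℝ) ≤ 2 * Real.log n ^ (2 / 3 : ℝ) := by
  have h1 : (1 / 2 : ℝ) ≤ Real.log n := by
    have h2 : Real.log 2 ≤ Real.log n := Real.log_le_log (by norm_num) (by exact_mod_cast hn)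
    have := Real.log_two_gt_d9
    linarith
  have h2 : ((1 / 2 : ℝ)) ^ (2 / 3 : ℝ) ≤ Real.log n ^ (2 / 3 : ℝ) :=
    Real.rpow_le_rpow (by norm_num) h1 (by norm_num)
  have h3 : (1 / 2 : ℝ) ≤ (1 / 2 : ℝ) ^ (2 / 3 : ℝ) := by
    have := Real.rpow_le_rpow_of_exponent_ge (x := (1 / 2 : ℝ)) (by norm_num) (by norm_num)
      (show (2 / 3 : ℝ) ≤ 1 by norm_num)
    rwa [Real.rpow_one] at this
  linarith

/-- The main theorem. -/
theorem main {n : ℕ} (hn : 2 ≤ n) :
    (sList n).Nodup ∧ (∀ s ∈ sList n, 2 * n ≤ s ∧ s < 4 * n) ∧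
    ((sList n).length : ℝ) ≤ 128 * (n : ℝ) ^ (2 / 3 : ℝ) ∧
    ∀ A : Finset ℕ, (∀ a ∈ A, n ≤ a ∧ a < 2 * n) →
      (∀ a ∈ A, ∀ b ∈ A, a ≠ b → a + b ∉ sList n) →
        (A.card : ℝ) ≤ 128 * (n : ℝ) ^ (2 / 3 : ℝ) := by
  have hm := m_le (show 1 ≤ n by omega)
  have h0 : (0 : ℝ) ≤ (n : ℝ) ^ (2 / 3 : ℝ) := by positivity
  refine ⟨sList_nodup n, ?_, ?_, ?_⟩
  · intro s hs
    obtain ⟨u, hu, -, rfl⟩ := mem_sList.1 hs
    omega
  · have h1 := (Nat.cast_le (α := ℝ)).2 (sList_length n)
    push_cast at h1 hm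
    linarith
  · intro A hA hadm
    have h1 := (Nat.cast_le (α := ℝ)).2 (adm_card (by omega) A hA hadm)
    push_cast at h1 hm
    linarith

end Pool.Agent.NPC.X247Adm
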