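import Mathlib

/-!
# Sets without sums on a paraboloid

If the sums of distinct elements of a set `A` of points of `F × F × F` avoid the paraboloid
`z = x ^ 2 + y ^ 2`, where `F` is the field with `p` elements, `p` odd, then `A` has at most
`p ^ 2 + p` elements.
-/

namespace Pool.Agent.X247.Adm

open Finset

variable (p : ℕ) [Fact p.Prime]

/-- the paraboloid -/
def Par (v : ZMod p × ZMod p × ZMod p) : Prop := v.2.2 = v.1 * v.1 + v.2.1 * v.2.1

instance : DecidablePred (Par p) := fun v => by unfold Par; infer_instance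

variable {p}

/-- the number of the elements of `A` whose sum with `b` is on the paraboloid -/
def N (A : Finset (ZMod p × ZMod p × ZMod p)) (b : ZMod p × ZMod p × ZMod p) : ℕ :=
  (A.filter fun a => Par p (a + b)).card

theorem card_single (a : ZMod p × ZMod p × ZMod p) :
    (univ.filter fun b => Par p (a + b)).card = p * p := by
  have h : (univ : Finset (ZMod p × ZMod p)).card = p * p := by
    rw [Finset.card_univ, Fintype.card_prod, ZMod.card]
  rw [← h]
  symm
  refine Finset.card_bij (fun q _ => ((q.1, q.2, (a.1 + q.1) * (a.1 + q.1) +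
    (a.2.1 + q.2) * (a.2.1 + q.2) - a.2.2) : ZMod p × ZMod p × ZMod p)) ?_ ?_ ?_
  · intro q _
    simp only [mem_filter, mem_univ, true_and, Par, Prod.fst_add, Prod.snd_add]
    ring
  · intro q _ q' _ h
    simp only [Prod.mk.injEq] at h
    exact Prod.ext h.1 h.2.1
  · intro b hb
    simp only [mem_filter, mem_univ, true_and, Par, Prod.fst_add, Prod.snd_add] at hb
    refine ⟨(b.1, b.2.1), mem_univ _, ?_⟩
    refine Prod.ext rfl (Prod.ext rfl ?_)
    simp only
    rw [← hb]
    ring

theorem card_pair (hp : p ≠ 2) {a a' : ZMod p × ZMod p × ZMod p} (h : a ≠ a') :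
    (univ.filter fun b => Par p (a + b) ∧ Par p (a' + b)).card ≤ p := by
  have hcard : (univ : Finset (ZMod p)).card = p := by rw [Finset.card_univ, ZMod.card]
  have h2 : (2 : ZMod p) ≠ 0 := by
    intro h0
    have h1 : ((2 : ℕ) : ZMod p) = 0 := by exact_mod_cast h0
    rw [ZMod.natCast_eq_zero_iff] at h1
    have hpp := (Fact.out : p.Prime)
    exact hp ((Nat.prime_dvd_prime_iff_eq hpp Nat.prime_two).1 h1)
  -- the linear equation
  have key : ∀ b, Par p (a + b) → Par p (a' + b) →
      2 * (a.1 - a'.1) * b.1 + 2 * (a.2.1 - a'.2.1) * b.2.1 =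
        a.2.2 - a'.2.2 - a.1 * a.1 + a'.1 * a'.1 - a.2.1 * a.2.1 + a'.2.1 * a'.2.1 := by
    intro b h3 h4
    simp only [Par, Prod.fst_add, Prod.snd_add] at h3 h4
    linear_combination h4 - h3
  have third : ∀ b c, Par p (a + b) → Par p (a + c) → b.1 = c.1 → b.2.1 = c.2.1 → b = c := by
    intro b c h3 h4 h5 h6
    simp only [Par, Prod.fst_add, Prod.snd_add] at h3 h4
    refine Prod.ext h5 (Prod.ext h6 ?_)
    rw [h5, h6] at h3
    linear_combination h3 - h4
  by_cases h5 : a.1 = a'.1
  · by_cases h6 : a.2.1 = a'.2.1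
    · -- no solution
      have : (univ.filter fun b => Par p (a + b) ∧ Par p (a' + b)) = ∅ := by
        rw [Finset.filter_eq_empty_iff]
        rintro b - ⟨h3, h4⟩
        apply h
        refine Prod.ext h5 (Prod.ext h6 ?_)
        simp only [Par, Prod.fst_add, Prod.snd_add] at h3 h4
        rw [h5, h6] at h3
        linear_combination h3 - h4
      rw [this]
      simp
    · refine le_trans ?_ hcard.le
      have hne : 2 * (a.2.1 - a'.2.1) ≠ 0 := mul_ne_zero h2 (sub_ne_zero.2 h6)
      refine Finset.card_le_card_of_injOn (fun b => b.1) (fun _ _ => mem_coe.2 (mem_univ _)) ?_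
      intro b hb c hc hbc
      rw [mem_coe, mem_filter] at hb hc
      have e1 := key b hb.2.1 hb.2.2
      have e2 := key c hc.2.1 hc.2.2
      refine third b c hb.2.1 hc.2.1 hbc ?_
      have hbc' : b.1 = c.1 := hbc
      rw [hbc'] at e1
      have e3 : 2 * (a.2.1 - a'.2.1) * (b.2.1 - c.2.1) = 0 := by linear_combination e1 - e2
      rcases mul_eq_zero.1 e3 with e4 | e4
      · exact absurd e4 hne
      · exact sub_eq_zero.1 e4
  · refine le_trans ?_ hcard.le
    have hne : 2 * (a.1 - a'.1) ≠ 0 := mul_ne_zero h2 (sub_ne_zero.2 h5)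
    refine Finset.card_le_card_of_injOn (fun b => b.2.1) (fun _ _ => mem_coe.2 (mem_univ _)) ?_
    intro b hb c hc hbc
    rw [mem_coe, mem_filter] at hb hc
    have e1 := key b hb.2.1 hb.2.2
    have e2 := key c hc.2.1 hc.2.2
    have hbc' : b.2.1 = c.2.1 := hbc
    refine third b c hb.2.1 hc.2.1 ?_ hbc'
    rw [hbc'] at e1
    have e3 : 2 * (a.1 - a'.1) * (b.1 - c.1) = 0 := by linear_combination e1 - e2
    rcases mul_eq_zero.1 e3 with e4 | e4
    · exact absurd e4 hne
    · exact sub_eq_zero.1 e4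

theorem sum_N (A : Finset (ZMod p × ZMod p × ZMod p)) :
    ∑ b, N A b = A.card * (p * p) := by
  unfold N
  simp_rw [Finset.card_filter]
  rw [Finset.sum_comm]
  have : ∀ a ∈ A, (∑ b, if Par p (a + b) then 1 else 0) = p * p := by
    intro a _
    rw [← Finset.card_filter]
    exact card_single a
  rw [Finset.sum_congr rfl this, Finset.sum_const, smul_eq_mul]

theorem sum_N_sq (hp : p ≠ 2) (A : Finset (ZMod p × ZMod p × ZMod p)) :
    ∑ b, N A b * N A b ≤ A.card * (p * p) + A.card * A.card * p := by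
  have h1 : ∀ b, N A b * N A b =
      ∑ a ∈ A, ∑ a' ∈ A, if Par p (a + b) ∧ Par p (a' + b) then 1 else 0 := by
    intro b
    unfold N
    rw [Finset.card_filter, Finset.sum_mul_sum]
    refine Finset.sum_congr rfl fun a _ => Finset.sum_congr rfl fun a' _ => ?_
    by_cases h1 : Par p (a + b) <;> by_cases h2 : Par p (a' + b) <;> simp [h1, h2]
  simp_rw [h1]
  rw [Finset.sum_comm]
  have h2 : ∀ a ∈ A, (∑ b, ∑ a' ∈ A, if Par p (a + b) ∧ Par p (a' + b) then 1 else 0) ≤
      p * p + A.card * p := by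
    intro a ha
    rw [Finset.sum_comm]
    have h3 : ∀ a' ∈ A, (∑ b, if Par p (a + b) ∧ Par p (a' + b) then 1 else 0) ≤
        (if a' = a then p * p else 0) + p := by
      intro a' _
      rw [← Finset.card_filter]
      by_cases h : a' = a
      · subst h
        rw [if_pos rfl]
        simp only [and_self]
        rw [card_single]
        omega
      · rw [if_neg h]
        have := card_pair hp (fun h' : a = a' => h h'.symm)
        omega
    refine (Finset.sum_le_sum h3).trans ?_
    rw [Finset.sum_add_distrib, Finset.sum_ite_eq' A a, if_pos ha, Finset.sum_const, smul_eq_mul]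
  refine (Finset.sum_le_sum h2).trans ?_
  rw [Finset.sum_const, smul_eq_mul]
  apply le_of_eq
  ring

/-- the bound -/
theorem card_le (hp : p ≠ 2) (A : Finset (ZMod p × ZMod p × ZMod p))
    (hA : ∀ a ∈ A, ∀ b ∈ A, a ≠ b → ¬ Par p (a + b)) : A.card ≤ p * p + p := by
  by_contra hcon
  rw [not_le] at hcon
  obtain ⟨m, hm⟩ : ∃ m, m = A.card := ⟨_, rfl⟩
  rw [← hm] at hcon
  have hN : ∀ b ∈ A, N A b ≤ 1 := by
    intro b hb
    unfold N
    rw [Finset.card_le_one]
    intro a ha a' ha'
    rw [mem_filter] at ha ha'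
    have e1 : a = b := by
      by_contra h
      exact hA a ha.1 b hb h ha.2
    have e2 : a' = b := by
      by_contra h
      exact hA a' ha'.1 b hb h ha'.2
    rw [e1, e2]
  have hp1 : 1 ≤ p := (Fact.out : p.Prime).one_lt.le
  -- everything over the integers
  have s1 : (∑ b, (N A b : ℤ)) = m * (p * p) := by
    rw [← Nat.cast_sum, sum_N, ← hm]
    push_cast
    ring
  have s2 : (∑ b, (N A b : ℤ) * (N A b : ℤ)) ≤ m * (p * p) + m * m * p := by
    have := sum_N_sq hp A
    rw [← hm] at this
    have h := (Nat.cast_le (α := ℤ)).2 this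
    push_cast at h
    exact h
  have s3 : (∑ _b : ZMod p × ZMod p × ZMod p, (1 : ℤ)) = p * (p * p) := by
    rw [Finset.sum_const, Finset.card_univ, Fintype.card_prod, Fintype.card_prod, ZMod.card]
    simp
  have s4 : (∑ b, ((m : ℤ) - p * N A b) ^ 2) ≤ m * (p * p * p * p) := by
    have e : ∀ b, ((m : ℤ) - p * N A b) ^ 2 = (m : ℤ) ^ 2 * 1 - 2 * m * p * (N A b : ℤ) +
        p * p * ((N A b : ℤ) * (N A b : ℤ)) := fun b => by ring
    simp_rw [e]
    rw [Finset.sum_add_distrib, Finset.sum_sub_distrib, ← Finset.mul_sum, ← Finset.mul_sum,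
      ← Finset.mul_sum, s1, s3]
    have hpp : (0 : ℤ) ≤ p * p := by positivity
    have := mul_le_mul_of_nonneg_left s2 hpp
    nlinarith [this]
  have s5 : (m : ℤ) * ((m : ℤ) - p) ^ 2 ≤ ∑ b, ((m : ℤ) - p * N A b) ^ 2 := by
    have h1 : (∑ b ∈ A, ((m : ℤ) - p) ^ 2) = (m : ℤ) * ((m : ℤ) - p) ^ 2 := by
      rw [Finset.sum_const, ← hm]
      simp
    rw [← h1]
    refine le_trans (Finset.sum_le_sum fun b hb => ?_)
      (Finset.sum_le_sum_of_subset_of_nonneg (Finset.subset_univ A)
        fun b _ _ => sq_nonneg _)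
    have h2 : (N A b : ℤ) ≤ 1 := by exact_mod_cast hN b hb
    have h3 : (p : ℤ) * N A b ≤ p := by nlinarith
    have h4 : (0 : ℤ) ≤ (m : ℤ) - p := by
      have : p ≤ m := by nlinarith
      have : (p : ℤ) ≤ m := by exact_mod_cast this
      linarith
    nlinarith
  have s6 : ((m : ℤ) - p) ^ 2 ≤ p * p * p * p := by
    have h1 := s5.trans s4
    have h2 : (0 : ℤ) < m := by
      have : 0 < m := by omega
      exact_mod_cast this
    exact le_of_mul_le_mul_left h1 h2
  have s7 : (m : ℤ) ≥ p * p + p + 1 := by exact_mod_cast hcon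
  nlinarith

end Pool.Agent.X247.Adm
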